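import Pool.Agent.helper25.UC.A1
import Pool.Agent.helper25.UC.A2
import Pool.Agent.helper25.UC.C0
import Pool.Agent.helper25.UC.Z4

/-!
# Z5 : cut-off functions

`n0 = card V`, `ρ = √(qq z)`, `x = n_t²/ρ`, `N = tot z`; `ρ ≤ N ≤ √n0 ρ`.

`ss` is a `C^{1,1}` step function: `0 ≤ ss ≤ 1`, `ss = 0` on `(-∞,0]`, `ss = 1` on `[1,∞)`, derivative
`dss ∈ [0,2]`, `|ss(b) - ss(a) - dss(a)(b-a)| ≤ 2 (b-a)²`  (`dss` is `4`-Lipschitz).
`om κ p = ss (p/κ - 1)`: zero for `p ≤ κ`, one for `p ≥ 2κ`.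
`chi κ z t = 1 - ∏_{u~t} (1 - om κ (n_u/ρ))`.
`Ph X x = x` for `x ≤ X`, `2x - x²/(2X) - X/2` for `X ≤ x ≤ 2X`, `3X/2` for `x ≥ 2X`; derivative
`dPh X x = 1`, `2 - x/X`, `0`.  `bb = ρ · Ph X (n_t²/ρ)`, `corr = chi · bb`,
`gw = chi · dPh X (n_t²/ρ)`.
-/

namespace UC
open Finset
variable {V : Type} [Fintype V] [DecidableEq V] {s k : ℕ}

noncomputable def ss (t : ℝ) : ℝ :=
  if t ≤ 0 then 0 else if t ≤ 1 / 2 then 2 * t ^ 2 else if t ≤ 1 then 1 - 2 * (1 - t) ^ 2 else 1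

noncomputable def dss (t : ℝ) : ℝ :=
  if t ≤ 0 then 0 else if t ≤ 1 / 2 then 4 * t else if t ≤ 1 then 4 * (1 - t) else 0

noncomputable def om (κ p : ℝ) : ℝ := ss (p / κ - 1)

noncomputable def chi (G : SimpleGraph V) [DecidableRel G.Adj] (κ : ℝ) (z : St V s) (t : V) : ℝ :=
  1 - ∏ u, (if G.Adj t u then 1 - om κ ((z.n u : ℝ) / Real.sqrt (qq z)) else 1)

noncomputable def Ph (X x : ℝ) : ℝ :=
  if x ≤ X then x else if x ≤ 2 * X then 2 * x - x ^ 2 / (2 * X) - X / 2 else 3 * X / 2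

noncomputable def dPh (X x : ℝ) : ℝ :=
  if x ≤ X then 1 else if x ≤ 2 * X then 2 - x / X else 0

noncomputable def bb (X : ℝ) (t : V) (z : St V s) : ℝ :=
  Real.sqrt (qq z) * Ph X ((z.n t : ℝ) ^ 2 / Real.sqrt (qq z))

noncomputable def corr (G : SimpleGraph V) [DecidableRel G.Adj] (κ X : ℝ) (t : V)
    (z : St V s) : ℝ := chi G κ z t * bb X t z

noncomputable def gw (G : SimpleGraph V) [DecidableRel G.Adj] (κ X : ℝ) (t : V)
    (z : St V s) : ℝ :=
  chi G κ z t * dPh X ((z.n t : ℝ) ^ 2 / Real.sqrt (qq z))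

variable {G : SimpleGraph V} [DecidableRel G.Adj]

theorem ss_nonneg (t : ℝ) : 0 ≤ ss t := by
  unfold ss
  split_ifs <;> nlinarith

theorem ss_le_one (t : ℝ) : ss t ≤ 1 := by
  unfold ss
  split_ifs <;> nlinarith

theorem ss_zero (t : ℝ) (h : t ≤ 0) : ss t = 0 ∧ dss t = 0 := by
  unfold ss dss
  rw [if_pos h, if_pos h]
  exact ⟨rfl, rfl⟩

theorem ss_one (t : ℝ) (h : 1 ≤ t) : ss t = 1 := by
  unfold ss
  split_ifs <;> nlinarith

theorem dss_nonneg (t : ℝ) : 0 ≤ dss t := by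
  unfold dss
  split_ifs <;> linarith

theorem dss_le (t : ℝ) : dss t ≤ 2 := by
  unfold dss
  split_ifs <;> linarith

theorem ss_lip (a b : ℝ) : |ss b - ss a| ≤ 2 * |b - a| := by
  have key : ∀ a b : ℝ, a ≤ b → 0 ≤ ss b - ss a ∧ ss b - ss a ≤ 2 * (b - a) := by
    intro a b hab
    unfold ss
    split_ifs <;> constructor <;> nlinarith
  rcases le_total a b with h | h
  · have := key a b h
    rw [abs_of_nonneg this.1, abs_of_nonneg (by linarith)]
    exact this.2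
  · have := key b a h
    rw [abs_sub_comm (ss b), abs_sub_comm b, abs_of_nonneg this.1, abs_of_nonneg (by linarith)]
    exact this.2

theorem ss_taylor (a b : ℝ) : |ss b - ss a - dss a * (b - a)| ≤ 2 * (b - a) ^ 2 := by
  unfold ss dss
  rw [abs_le]
  split_ifs <;> constructor <;> nlinarith [sq_nonneg (b - a)]

private noncomputable def P1 (y : ℝ) : ℝ :=
  if y ≤ 1 then y else if y ≤ 2 then 2 * y - y ^ 2 / 2 - 1 / 2 else 3 / 2

private noncomputable def D1 (y : ℝ) : ℝ := if y ≤ 1 then 1 else if y ≤ 2 then 2 - y else 0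

private theorem Ph_scale (X y : ℝ) (hX : 1 ≤ X) : Ph X (X * y) = X * P1 y := by
  have hX0 : 0 < X := by linarith
  unfold Ph P1
  by_cases h1 : y ≤ 1
  · rw [if_pos h1, if_pos (by nlinarith)]
  · rw [if_neg h1, if_neg (by push Not at h1 ⊢; nlinarith)]
    by_cases h2 : y ≤ 2
    · rw [if_pos h2, if_pos (by nlinarith)]
      field_simp
    · rw [if_neg h2, if_neg (by push Not at h2 ⊢; nlinarith)]
      ring

private theorem dPh_scale (X y : ℝ) (hX : 1 ≤ X) : dPh X (X * y) = D1 y := by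
  have hX0 : 0 < X := by linarith
  unfold dPh D1
  by_cases h1 : y ≤ 1
  · rw [if_pos h1, if_pos (by nlinarith)]
  · rw [if_neg h1, if_neg (by push Not at h1 ⊢; nlinarith)]
    by_cases h2 : y ≤ 2
    · rw [if_pos h2, if_pos (by nlinarith)]
      field_simp
    · rw [if_neg h2, if_neg (by push Not at h2 ⊢; nlinarith)]

private theorem ex_scale (X x : ℝ) (hX : 1 ≤ X) : ∃ y, x = X * y :=
  ⟨x / X, by field_simp⟩

theorem dPh_nonneg (X x : ℝ) (hX : 1 ≤ X) : 0 ≤ dPh X x := by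
  obtain ⟨y, rfl⟩ := ex_scale X x hX
  rw [dPh_scale X y hX]
  unfold D1
  split_ifs <;> linarith

theorem dPh_le_one (X x : ℝ) (hX : 1 ≤ X) : dPh X x ≤ 1 := by
  obtain ⟨y, rfl⟩ := ex_scale X x hX
  rw [dPh_scale X y hX]
  unfold D1
  split_ifs <;> linarith

theorem Ph_nonneg (X x : ℝ) (hX : 1 ≤ X) (hx : 0 ≤ x) : 0 ≤ Ph X x := by
  obtain ⟨y, rfl⟩ := ex_scale X x hX
  have hy : 0 ≤ y := by
    by_contra h
    push Not at h
    nlinarith
  rw [Ph_scale X y hX]
  have : 0 ≤ P1 y := by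
    unfold P1
    split_ifs <;> nlinarith
  exact mul_nonneg (by linarith) this

theorem Ph_le (X x : ℝ) (hX : 1 ≤ X) : Ph X x ≤ 3 / 2 * X := by
  obtain ⟨y, rfl⟩ := ex_scale X x hX
  rw [Ph_scale X y hX]
  have : P1 y ≤ 3 / 2 := by
    unfold P1
    split_ifs <;> nlinarith [sq_nonneg (y - 2)]
  nlinarith

/-- `Ph` is concave with second derivative at least `-1/X` -/
theorem Ph_tangent (X x x' : ℝ) (hX : 1 ≤ X) (hx : 0 ≤ x) (hx' : 0 ≤ x') :
    Ph X x + dPh X x * (x' - x) - (x' - x) ^ 2 / (2 * X) ≤ Ph X x' := by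
  obtain ⟨y, rfl⟩ := ex_scale X x hX
  obtain ⟨y', rfl⟩ := ex_scale X x' hX
  have hX0 : 0 < X := by linarith
  rw [Ph_scale X y hX, Ph_scale X y' hX, dPh_scale X y hX]
  have key : P1 y + D1 y * (y' - y) - (y' - y) ^ 2 / 2 ≤ P1 y' := by
    unfold P1 D1
    split_ifs <;> nlinarith [sq_nonneg (y' - y), sq_nonneg (y' - 1), sq_nonneg (y' - 2),
      sq_nonneg (y - 1), sq_nonneg (y - 2)]
  have e : X * P1 y + D1 y * (X * y' - X * y) - (X * y' - X * y) ^ 2 / (2 * X) =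
      X * (P1 y + D1 y * (y' - y) - (y' - y) ^ 2 / 2) := by
    field_simp
  rw [e]
  exact mul_le_mul_of_nonneg_left key hX0.le

theorem Ph_sub (X x : ℝ) (hX : 1 ≤ X) (hx : 0 ≤ x) :
    0 ≤ Ph X x - x * dPh X x ∧ Ph X x - x * dPh X x ≤ 3 / 2 * X ∧
      (x ≤ X → Ph X x - x * dPh X x = 0) := by
  obtain ⟨y, rfl⟩ := ex_scale X x hX
  have hX0 : 0 < X := by linarith
  have hy : 0 ≤ y := by
    by_contra h
    push Not at h
    nlinarith
  rw [Ph_scale X y hX, dPh_scale X y hX]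
  have key : 0 ≤ P1 y - y * D1 y ∧ P1 y - y * D1 y ≤ 3 / 2 := by
    unfold P1 D1
    split_ifs <;> constructor <;> nlinarith [sq_nonneg (y - 1), sq_nonneg (y - 2)]
  have e : X * P1 y - X * y * D1 y = X * (P1 y - y * D1 y) := by ring
  rw [e]
  refine ⟨mul_nonneg hX0.le key.1, by nlinarith [key.2], ?_⟩
  intro h
  have h1 : y ≤ 1 := by
    by_contra h'
    push Not at h'
    nlinarith
  unfold P1 D1
  rw [if_pos h1, if_pos h1]
  ring

private theorem om_mem (κ p : ℝ) : 0 ≤ 1 - om κ p ∧ 1 - om κ p ≤ 1 := by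
  unfold om
  have h1 := ss_nonneg (p / κ - 1)
  have h2 := ss_le_one (p / κ - 1)
  constructor <;> linarith

private theorem fac_mem (κ : ℝ) (z : St V s) (t u : V) :
    0 ≤ (if G.Adj t u then 1 - om κ ((z.n u : ℝ) / Real.sqrt (qq z)) else 1) ∧
      (if G.Adj t u then 1 - om κ ((z.n u : ℝ) / Real.sqrt (qq z)) else 1) ≤ 1 := by
  split_ifs
  · exact om_mem _ _
  · constructor <;> norm_num

private theorem sqrt_qq_pos (z : St V s) (hz : 1 ≤ tot z) : 0 < Real.sqrt (qq z) := by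
  have := tot_le_qq z
  exact Real.sqrt_pos.2 (by linarith)

theorem chi_nonneg (κ : ℝ) (z : St V s) (t : V) : 0 ≤ chi G κ z t := by
  unfold chi
  have := Finset.prod_le_one (s := Finset.univ) (fun u _ => (fac_mem (G := G) κ z t u).1)
    (fun u _ => (fac_mem (G := G) κ z t u).2)
  linarith

theorem chi_le_one (κ : ℝ) (z : St V s) (t : V) : chi G κ z t ≤ 1 := by
  unfold chi
  have := Finset.prod_nonneg (s := Finset.univ) (fun u _ => (fac_mem (G := G) κ z t u).1)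
  linarith

/-- `chi = 1` next to a big urn -/
theorem chi_eq_one (κ : ℝ) (hκ : 0 < κ) (z : St V s) (t u : V) (htu : G.Adj t u)
    (hz : 1 ≤ tot z) (h : 2 * κ * Real.sqrt (qq z) ≤ (z.n u : ℝ)) : chi G κ z t = 1 := by
  have hρ := sqrt_qq_pos z hz
  unfold chi
  rw [Finset.prod_eq_zero (Finset.mem_univ u), sub_zero]
  rw [if_pos htu]
  unfold om
  rw [ss_one, sub_self]
  have h1 : 2 * κ ≤ (z.n u : ℝ) / Real.sqrt (qq z) := by
    rw [le_div_iff₀ hρ]
    exact h
  have h2 : 2 ≤ (z.n u : ℝ) / Real.sqrt (qq z) / κ := by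
    rw [le_div_iff₀ hκ]
    exact h1
  linarith

/-- `chi > 0` only next to an urn which is not small -/
theorem exists_of_chi_pos (κ : ℝ) (hκ : 0 < κ) (z : St V s) (t : V)
    (hz : 1 ≤ tot z) (h : 0 < chi G κ z t) :
    ∃ u, G.Adj t u ∧ κ * Real.sqrt (qq z) < (z.n u : ℝ) := by
  have hρ := sqrt_qq_pos z hz
  by_contra hn
  push Not at hn
  have h0 : chi G κ z t = 0 := by
    unfold chi
    rw [Finset.prod_eq_one, sub_self]
    intro u _
    by_cases ha : G.Adj t u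
    · rw [if_pos ha]
      have h1 := hn u ha
      have h2 : (z.n u : ℝ) / Real.sqrt (qq z) ≤ κ := by
        rw [div_le_iff₀ hρ]
        exact h1
      have h3 : (z.n u : ℝ) / Real.sqrt (qq z) / κ ≤ 1 := by
        rw [div_le_iff₀ hκ]
        linarith
      unfold om
      rw [(ss_zero _ (by linarith)).1, sub_zero]
    · rw [if_neg ha]
  rw [h0] at h
  exact lt_irrefl _ h

private theorem bb_nonneg (X : ℝ) (hX : 1 ≤ X) (t : V) (z : St V s) : 0 ≤ bb X t z := by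
  unfold bb
  exact mul_nonneg (Real.sqrt_nonneg _) (Ph_nonneg X _ hX (by positivity))

theorem corr_nonneg (κ X : ℝ) (hX : 1 ≤ X) (t : V) (z : St V s) : 0 ≤ corr G κ X t z := by
  unfold corr
  exact mul_nonneg (chi_nonneg κ z t) (bb_nonneg X hX t z)

theorem corr_le (κ X : ℝ) (hX : 1 ≤ X) (t : V) (z : St V s) :
    corr G κ X t z ≤ 3 / 2 * X * Real.sqrt (qq z) := by
  unfold corr
  have h1 := bb_nonneg X hX t z
  have h2 := chi_le_one (G := G) κ z t
  have h3 : bb X t z ≤ 3 / 2 * X * Real.sqrt (qq z) := by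
    unfold bb
    have := Ph_le X ((z.n t : ℝ) ^ 2 / Real.sqrt (qq z)) hX
    rw [mul_comm (3 / 2 * X)]
    exact mul_le_mul_of_nonneg_left this (Real.sqrt_nonneg _)
  nlinarith

theorem rho_le_tot (z : St V s) : Real.sqrt (qq z) ≤ tot z := by
  rw [Real.sqrt_le_left (tot_nonneg z)]
  exact qq_le_tot_sq z

theorem tot_le_rho (z : St V s) : tot z ≤ Real.sqrt (cV V) * Real.sqrt (qq z) := by
  have hc : (0 : ℝ) ≤ cV V := by unfold cV; positivity
  rw [← Real.sqrt_mul hc]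
  exact Real.le_sqrt_of_sq_le (tot_sq_le z)

/-- one step changes `√qq` by at most `√(card V)`
(triangle inequality for the vectors `nR z`, `nR z'`, whose difference has entries in `{-1,0,1}`) -/
theorem rho_step (z : St V s) (w : V) :
    |Real.sqrt (qq (step G z w)) - Real.sqrt (qq z)| ≤ Real.sqrt (cV V) := by
  have h := norm_sub_le_dist z.c (nR (step G z w)) z.c (nR z)
  have e1 : ∀ z : St V s, ∑ v, nR z v ^ 2 = qq z := fun z => rfl
  rw [e1, e1] at h
  refine h.trans (Real.sqrt_le_sqrt ?_)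
  unfold dsq cV
  have h1 : ∀ v ∈ (Finset.univ : Finset V),
      (nR (step G z w) v - eps (z.c v) (z.c v) * nR z v) ^ 2 ≤ 1 := by
    intro v _
    have e2 : eps (z.c v) (z.c v) = 1 := by unfold eps; rw [if_pos rfl]
    have h2 := A1_n_le (G := G) z w v
    have h3 := A1_n_ge (G := G) z w v
    rw [e2]
    unfold nR
    nlinarith
  have h4 := Finset.sum_le_sum h1
  rw [Finset.sum_const, Finset.card_univ, nsmul_eq_mul, mul_one] at h4
  exact h4

end UC
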